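import Pool.Agent.Helper27.Cube.Final

/-! Auxiliary results on the stretch of maps between hypercubes (MP_b8f462_co). -/

set_option autoImplicit false

namespace Pool.Agent.Helper11.OWN

open Finset Pool.Agent.Helper27.Cube

/-- The hypercube graph. -/
def Qg (m : ℕ) : SimpleGraph (Fin m → Bool) where
  Adj x y := hammingDist x y = 1
  symm := ⟨fun x y h => by rw [hammingDist_comm]; exact h⟩
  loopless := ⟨fun x h => by rw [hammingDist_self] at h; exact zero_ne_one h⟩

instance (m : ℕ) : DecidableRel (Qg m).Adj :=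
  fun x y => inferInstanceAs (Decidable (hammingDist x y = 1))

/-- flip one coordinate -/
def flp {m : ℕ} (x : Fin m → Bool) (i : Fin m) : Fin m → Bool := Function.update x i (!x i)

theorem dist_flp {m : ℕ} (x : Fin m → Bool) (i : Fin m) : hammingDist x (flp x i) = 1 := by
  unfold hammingDist
  rw [card_eq_one]
  refine ⟨i, ?_⟩
  ext j
  rw [mem_filter, mem_singleton]
  by_cases hji : j = i
  · subst hji
    simp [flp]
  · simp [flp, Function.update_of_ne hji, hji]

theorem exists_flp {m : ℕ} (x y : Fin m → Bool) (h : hammingDist x y = 1) : ∃ i, y = flp x i := by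
  unfold hammingDist at h
  obtain ⟨i, hi⟩ := card_eq_one.1 h
  refine ⟨i, ?_⟩
  ext j
  have hj : j ∈ (univ.filter fun j => x j ≠ y j) ↔ j ∈ ({i} : Finset (Fin m)) := by rw [hi]
  rw [mem_filter, mem_singleton] at hj
  by_cases hji : j = i
  · subst hji
    have h2 : x j ≠ y j := (hj.2 rfl).2
    simp only [flp, Function.update_self]
    cases hx : x j <;> cases hy : y j <;> simp_all
  · have h2 : ¬ x j ≠ y j := fun h3 => hji (hj.1 ⟨mem_univ _, h3⟩)
    rw [not_not] at h2
    simp [flp, Function.update_of_ne hji, h2]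

theorem flp_inj {m : ℕ} (x : Fin m → Bool) (i j : Fin m) (h : flp x i = flp x j) : i = j := by
  by_contra hij
  have := congrFun h i
  simp [flp, Function.update_of_ne hij] at this

/-- sum over the edges -/
theorem sum_edges {m : ℕ} (F : Sym2 (Fin m → Bool) → ℝ) :
    2 * ∑ e ∈ (Qg m).edgeFinset, F e = ∑ x : Fin m → Bool, ∑ i : Fin m, F s(x, flp x i) := by
  classical
  have h1 : ∑ d : (Qg m).Dart, F d.edge = 2 * ∑ e ∈ (Qg m).edgeFinset, F e := by
    rw [← sum_fiberwise_of_maps_to (s := (univ : Finset (Qg m).Dart)) (t := (Qg m).edgeFinset)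
      (g := fun d => d.edge) (fun d _ => by
        rw [SimpleGraph.mem_edgeFinset]; exact d.edge_mem), mul_sum]
    refine sum_congr rfl fun e he => ?_
    rw [sum_congr rfl (g := fun _ => F e) (fun d hd => by rw [(mem_filter.1 hd).2]), sum_const,
      SimpleGraph.dart_edge_fiber_card (Qg m) e (SimpleGraph.mem_edgeFinset.1 he)]
    simp
  rw [← h1, ← Fintype.sum_prod_type' (f := fun (x : Fin m → Bool) (i : Fin m) => F s(x, flp x i))]
  symm
  refine sum_bij (fun p _ => (⟨(p.1, flp p.1 p.2), dist_flp p.1 p.2⟩ : (Qg m).Dart)) ?_ ?_ ?_ ?_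
  · intro _ _; exact mem_univ _
  · rintro ⟨x, i⟩ _ ⟨y, j⟩ _ h
    have h2 := congrArg (fun d : (Qg m).Dart => d.toProd) h
    simp only [Prod.mk.injEq] at h2
    obtain ⟨rfl, h3⟩ := h2
    rw [flp_inj x i j h3]
  · rintro ⟨⟨x, y⟩, hxy⟩ _
    obtain ⟨i, rfl⟩ := exists_flp x y hxy
    exact ⟨(x, i), mem_univ _, rfl⟩
  · intro _ _; rfl

theorem card_edges (m : ℕ) : 2 * ((Qg m).edgeFinset.card : ℝ) = m * 2 ^ m := by
  have h := sum_edges (m := m) (fun _ => 1)
  simp only [sum_const, nsmul_eq_mul, mul_one, card_univ, Fintype.card_fin, Fintype.card_fun,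
    Fintype.card_bool] at h
  rw [h]; push_cast; ring

/-- The stretch of an edge. -/
def st {m n : ℕ} (φ : (Fin m → Bool) → (Fin n → Bool)) : Sym2 (Fin m → Bool) → ℝ :=
  Sym2.lift ⟨fun x y => (hammingDist (φ x) (φ y) : ℝ), fun _ _ => congrArg Nat.cast (hammingDist_comm _ _)⟩

theorem avg_le {m n : ℕ} (hm : 0 < m) (φ : (Fin m → Bool) → (Fin n → Bool)) (c : ℝ)
    (h : ∑ x : Fin m → Bool, ∑ i, (hammingDist (φ x) (φ (Function.update x i (!x i))) : ℝ) ≤
      c * ((m : ℝ) * 2 ^ m)) :
    (∑ e ∈ (Qg m).edgeFinset, st φ e) / ((Qg m).edgeFinset.card : ℝ) ≤ c := by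
  have h1 := card_edges m
  have h2 := sum_edges (st φ)
  have hpos : (0 : ℝ) < (m : ℝ) * 2 ^ m := by positivity
  have h3 : (0 : ℝ) < ((Qg m).edgeFinset.card : ℝ) := by linarith
  rw [div_le_iff₀ h3]
  have h4 : ∑ x : Fin m → Bool, ∑ i : Fin m, st φ s(x, flp x i) =
      ∑ x : Fin m → Bool, ∑ i, (hammingDist (φ x) (φ (Function.update x i (!x i))) : ℝ) := rfl
  rw [h4] at h2
  have h5 : c * (2 * ((Qg m).edgeFinset.card : ℝ)) = c * (m * 2 ^ m) := by rw [h1]
  linarith

theorem avg_le_dim {m n : ℕ} (φ : (Fin m → Bool) → (Fin n → Bool)) :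
    (∑ e ∈ (Qg m).edgeFinset, st φ e) / ((Qg m).edgeFinset.card : ℝ) ≤ n := by
  have h1 : ∑ e ∈ (Qg m).edgeFinset, st φ e ≤ ∑ e ∈ (Qg m).edgeFinset, (n : ℝ) := by
    refine sum_le_sum fun e _ => ?_
    induction e using Sym2.ind with
    | _ x y =>
      show (hammingDist (φ x) (φ y) : ℝ) ≤ n
      have := hammingDist_le_card_fintype (x := φ x) (y := φ y)
      rw [Fintype.card_fin] at this
      exact_mod_cast this
  rw [sum_const, nsmul_eq_mul] at h1
  refine div_le_of_le_mul₀ (Nat.cast_nonneg _) (Nat.cast_nonneg _) ?_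
  linarith

theorem card_ball1 (n k : ℕ) (hk : k ≤ n) :
    (univ.filter fun x : Fin n → Bool => n - k ≤ wt x).card ≤
      (univ.filter fun x : Fin n → Bool => wt x ≤ k).card := by
  refine card_le_card_of_injOn (fun x i => !x i) ?_ ?_
  · intro x hx
    simp only [coe_filter, mem_univ, true_and, Set.mem_ofPred_eq] at hx ⊢
    have h := wt_not n x
    have h1 : (n : ℝ) ≤ k + wt x := by
      have : n ≤ k + wt x := by omega
      exact_mod_cast this
    have h2 : (wt (fun i => !x i) : ℝ) ≤ k := by linarith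
    exact_mod_cast h2
  · intro x _ y _ h
    funext i
    have := congrFun h i
    simpa using this

/-- the pointwise statement -/
theorem main (N : ℕ) (hN : 4 ≤ N) :
    ∃ (k : ℕ) (C : Finset (Fin (N + 1) → Bool)) (φ : (Fin N → Bool) → (Fin (N + 1) → Bool)),
      IsGreatest {j : ℕ | 1 ≤ j ∧ j ≤ N + 1 ∧
        ∑ i ∈ range (j + 1), (N + 1).choose i ≤ 2 ^ (N - 1)} k ∧
      Disjoint (univ.filter fun x : Fin (N + 1) → Bool => wt x ≤ k)
        (univ.filter fun x : Fin (N + 1) → Bool => N + 1 - k ≤ wt x) ∧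
      Disjoint C ((univ.filter fun x : Fin (N + 1) → Bool => wt x ≤ k) ∪
        (univ.filter fun x : Fin (N + 1) → Bool => N + 1 - k ≤ wt x)) ∧
      ((univ.filter fun x : Fin (N + 1) → Bool => wt x ≤ k) ∪
        (univ.filter fun x : Fin (N + 1) → Bool => N + 1 - k ≤ wt x)).card + C.card = 2 ^ N ∧
      Set.BijOn φ Set.univ ((univ.filter fun x : Fin (N + 1) → Bool => wt x ≤ k) ∪
        (univ.filter fun x : Fin (N + 1) → Bool => N + 1 - k ≤ wt x) ∪ C :
        Finset (Fin (N + 1) → Bool)) ∧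
      (∑ e ∈ (Qg N).edgeFinset, st φ e) / ((Qg N).edgeFinset.card : ℝ) ≤ 3 * 10 ^ 14 := by
  classical
  obtain ⟨k, hk, hk1, -⟩ := exists_radius N (by omega)
  have hup := threshold_upper (N + 1) k (by omega) hk1
  have h1k : 1 ≤ k := by
    apply hk.2
    show ∑ j ∈ range 2, (N + 1).choose j ≤ 2 ^ (N - 1)
    rw [sum_range_succ, sum_range_one, Nat.choose_zero_right, Nat.choose_one_right]
    obtain ⟨t, rfl⟩ : ∃ t, N = t + 4 := ⟨N - 4, by omega⟩
    have : t + 4 - 1 = t + 3 := by omega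
    rw [this]
    clear * -
    induction t with
    | zero => norm_num
    | succ t ih =>
      have : 2 ^ (t + 1 + 3) = 2 * 2 ^ (t + 3) := by ring
      omega
  have hG : IsGreatest {j : ℕ | 1 ≤ j ∧ j ≤ N + 1 ∧
      ∑ i ∈ range (j + 1), (N + 1).choose i ≤ 2 ^ (N - 1)} k :=
    ⟨⟨h1k, by omega, hk.1⟩, fun j hj => hk.2 hj.2.2⟩
  set B0 := (univ.filter fun x : Fin (N + 1) → Bool => wt x ≤ k) with hB0
  set B1 := (univ.filter fun x : Fin (N + 1) → Bool => N + 1 - k ≤ wt x) with hB1
  have hdis : Disjoint B0 B1 := by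
    rw [Finset.disjoint_left]
    intro x hx hy
    rw [hB0, mem_filter] at hx
    rw [hB1, mem_filter] at hy
    omega
  have hU : (B0 ∪ B1).card ≤ 2 ^ N := by
    have h1 : B0.card ≤ 2 ^ (N - 1) := by
      rw [hB0, card_ball]; exact hk.1
    have h2 : B1.card ≤ B0.card := card_ball1 (N + 1) k (by omega)
    have h3 := card_union_le B0 B1
    have h4 : 2 ^ N = 2 * 2 ^ (N - 1) := by
      obtain ⟨t, rfl⟩ : ∃ t, N = t + 1 := ⟨N - 1, by omega⟩
      rw [Nat.add_sub_cancel]; ring
    omega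
  -- it is enough to find `A` and `φ`
  have key : ∃ (A : Finset (Fin (N + 1) → Bool)) (φ : (Fin N → Bool) → (Fin (N + 1) → Bool)),
      B0 ∪ B1 ⊆ A ∧ A.card = 2 ^ N ∧ Set.BijOn φ Set.univ (A : Set (Fin (N + 1) → Bool)) ∧
      (∑ e ∈ (Qg N).edgeFinset, st φ e) / ((Qg N).edgeFinset.card : ℝ) ≤ 3 * 10 ^ 14 := by
    rcases le_or_gt 65536 N with hbig | hsmall
    · obtain ⟨k', hk', A, φ, hA, hcard, hinj, hmem, hsum⟩ := main_bound N hbig
      have hkk : k' = k := hk'.unique hk
      subst hkk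
      refine ⟨A, φ, ?_, hcard, ⟨fun x _ => hmem x, hinj.injOn, ?_⟩, avg_le (by omega) φ _ ?_⟩
      · intro x hx
        rw [mem_union, hB0, hB1, mem_filter, mem_filter] at hx
        exact hA x (by tauto)
      · have h1 : univ.image φ = A := by
          refine eq_of_subset_of_card_le ?_ ?_
          · intro y hy
            obtain ⟨x, -, rfl⟩ := mem_image.1 hy
            exact hmem x
          · rw [card_image_of_injective _ hinj, hcard, card_univ, Fintype.card_fun,
              Fintype.card_bool, Fintype.card_fin]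
        intro y hy
        rw [← h1] at hy
        obtain ⟨x, -, rfl⟩ := mem_image.1 hy
        exact ⟨x, trivial, rfl⟩
      · exact hsum
    · obtain ⟨A, hA1, hA2⟩ := exists_superset_card_eq hU (by
        rw [Fintype.card_fun, Fintype.card_bool, Fintype.card_fin]
        exact Nat.pow_le_pow_right (by norm_num) (by omega))
      have hc : Fintype.card (Fin N → Bool) = Fintype.card {x // x ∈ A} := by
        rw [Fintype.card_fun, Fintype.card_bool, Fintype.card_fin, Fintype.card_coe, hA2]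
      let e := Fintype.equivOfCardEq hc
      refine ⟨A, fun x => (e x).1, hA1, hA2, ⟨fun x _ => (e x).2, ?_, ?_⟩, ?_⟩
      · intro x _ y _ h
        exact e.injective (Subtype.ext h)
      · intro y hy
        refine ⟨e.symm ⟨y, hy⟩, trivial, ?_⟩
        simp
      · refine (avg_le_dim _).trans ?_
        have : ((N + 1 : ℕ) : ℝ) ≤ 65536 := by exact_mod_cast hsmall
        linarith
  obtain ⟨A, φ, hA, hcard, hbij, havg⟩ := key
  refine ⟨k, A \ (B0 ∪ B1), φ, hG, hdis, sdiff_disjoint, ?_, ?_, havg⟩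
  · rw [card_sdiff_of_subset hA, hcard]
    exact Nat.add_sub_of_le hU
  · rw [union_sdiff_of_subset hA]
    exact hbij

end Pool.Agent.Helper11.OWN
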